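import Mathlib
import Pool.Agent.Helper41.SQC.Goals
import Pool.Agent.Helper28.SQ.SPAN

/-!
# Project SQ stage C (MP_bb32d1_al), packet SQC-SPW: words are combinations of monomials with the
same content
-/

set_option autoImplicit false

namespace Pool.Agent.Helper13.SQC

open Pool.Agent.Helper19.SQ Pool.Agent.Helper41.SQC Pool.Agent.Helper28.SQ

section content

/-- the content as a sum over a product -/
theorem cn_prod (N : ℕ) (b : ℕ → ℕ → ℕ) (m : ℕ) :
    cn N b m = ∑ p ∈ Finset.range (m + 1) ×ˢ Finset.Ioc m N, b p.1 p.2 := by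
  unfold cn
  rw [← Finset.sum_product']

theorem cn_upd_in (N : ℕ) (b : ℕ → ℕ → ℕ) (i j c m : ℕ) (hi : i ≤ m) (hm : m < j) (hj : j ≤ N) :
    cn N (upd b i j c) m + b i j = cn N b m + c := by
  rw [cn_prod, cn_prod]
  have h := sum_diff_one (Finset.range (m + 1) ×ˢ Finset.Ioc m N)
    (fun p => upd b i j c p.1 p.2) (fun p => b p.1 p.2) (i, j)
    (by simp; omega) (by
      rintro ⟨x, y⟩ hne
      have : ¬ (x = i ∧ y = j) := fun h => hne (by rw [h.1, h.2])
      simp only [upd, if_neg this])
  simp only [upd, and_self, if_true] at h ⊢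
  exact h

theorem cn_upd_out (N : ℕ) (b : ℕ → ℕ → ℕ) (i j c m : ℕ) (h : ¬ (i ≤ m ∧ m < j)) :
    cn N (upd b i j c) m = cn N b m := by
  rw [cn_prod, cn_prod]
  refine Finset.sum_congr rfl ?_
  rintro ⟨x, y⟩ hp
  rw [Finset.mem_product, Finset.mem_range, Finset.mem_Ioc] at hp
  have : ¬ (x = i ∧ y = j) := by
    rintro ⟨rfl, rfl⟩
    exact h ⟨by have := hp.1; simp only at this; omega, hp.2.1⟩
  simp only [upd, if_neg this]

theorem cn_inc (N : ℕ) (b : ℕ → ℕ → ℕ) (i j m : ℕ) (hj : j ≤ N) :
    cn N (inc b i j) m = cn N b m + if i ≤ m ∧ m < j then 1 else 0 := by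
  unfold inc
  split_ifs with h
  · have := cn_upd_in N b i j (b i j + 1) m h.1 h.2 hj
    omega
  · rw [cn_upd_out N b i j _ m h, add_zero]

theorem cn_mvr (N : ℕ) (b : ℕ → ℕ → ℕ) (i k m : ℕ) (hi : i < k) (hk : k < N) (hb : b i k ≠ 0) :
    cn N (mvr b i k) m = cn N b m + if m = k then 1 else 0 := by
  unfold mvr
  rw [cn_inc N _ i (k + 1) m (by omega)]
  by_cases h : i ≤ m ∧ m < k
  · have h1 := cn_upd_in N b i k (b i k - 1) m h.1 h.2 (by omega)
    rw [if_pos ⟨h.1, by omega⟩, if_neg (by omega)]
    omega
  · rw [cn_upd_out N b i k _ m h]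
    congr 1
    by_cases hm : m = k
    · subst hm
      rw [if_pos ⟨by omega, by omega⟩, if_pos rfl]
    · rw [if_neg (by omega), if_neg hm]

theorem cn_inc_succ (N : ℕ) (b : ℕ → ℕ → ℕ) (k m : ℕ) (hk : k < N) :
    cn N (inc b k (k + 1)) m = cn N b m + if m = k then 1 else 0 := by
  rw [cn_inc N b k (k + 1) m (by omega)]
  congr 1
  by_cases hm : m = k
  · subst hm
    rw [if_pos ⟨by omega, by omega⟩, if_pos rfl]
  · rw [if_neg (by omega), if_neg hm]

end content

section
variable {B : Type} [Ring B] [Algebra ℂ B]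

/-- the span of the admissible monomials of content `c` -/
noncomputable def Csp (N l : ℕ) (q : ℂ) (E : ℕ → B) (c : ℕ → ℕ) : Submodule ℂ B :=
  Submodule.span ℂ {x | ∃ b, IsEx N l b ∧ (∀ m, m < N → cn N b m = c m) ∧ x = mon N q E b}

/-- every monomial is in the span of the admissible ones of the same content -/
theorem mon_memC {N l : ℕ} {q : ℂ} {E : ℕ → B} (hp : ∀ d i, rvA q E d i ^ l = 0)
    {b : ℕ → ℕ → ℕ} (hs : Supp N b) {c : ℕ → ℕ} (hc : ∀ m, m < N → cn N b m = c m) :
    mon N q E b ∈ Csp N l q E c := by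
  by_cases h : ∀ i j, i < j ∧ j ≤ N → b i j < l
  · exact Submodule.subset_span ⟨b, fun i j => ⟨h i j, hs i j⟩, hc, rfl⟩
  · push Not at h
    obtain ⟨i, j, ⟨hij, hj⟩, hb⟩ := h
    rw [mon_zero hp hij hj hb]
    exact Submodule.zero_mem _

end

/-- **Packet SQC-SPW** -/
theorem c_spw (hLM : Pool.Agent.Helper19.SQ.S_LM) : Pool.Agent.Helper41.SQC.S_SPW := by
  intro B _ _ N l q E hl hq hq1 hq2 hS hout hp w
  show (∀ k ∈ w, k < N) → (w.map E).prod ∈ Csp N l q E (fun m => w.count m)
  induction w with
  | nil =>
    intro _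
    have h0 : Supp N (fun _ _ => 0) := fun _ _ _ => rfl
    have h1 : mon N q E (fun _ _ => 0) = 1 := by
      unfold mon
      refine List.prod_eq_one ?_
      intro x hx
      obtain ⟨i, -, rfl⟩ := List.mem_map.1 hx
      unfold rowM
      refine List.prod_eq_one ?_
      intro y hy
      obtain ⟨d, -, rfl⟩ := List.mem_map.1 hy
      rw [pow_zero]
    have h2 : ∀ m, m < N → cn N (fun _ _ => 0) m = ([] : List ℕ).count m := by
      intro m _
      simp [cn]
    have h3 := mon_memC (l := l) (q := q) (E := E) hp h0 h2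
    rw [h1] at h3
    simpa using h3
  | cons k w ih =>
    intro hw
    rw [List.map_cons, List.prod_cons]
    have hk : k < N := hw k List.mem_cons_self
    have ih' := ih fun x hx => hw x (List.mem_cons_of_mem _ hx)
    have hcc : ∀ m, (k :: w).count m = w.count m + if m = k then 1 else 0 := by
      intro m
      rw [List.count_cons]
      congr 1
      by_cases hm : m = k
      · subst hm
        simp
      · rw [if_neg hm, if_neg]
        simpa using fun h : k = m => hm h.symm
    have hmap : ∀ x ∈ Csp N l q E (fun m => w.count m),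
        E k * x ∈ Csp N l q E (fun m => (k :: w).count m) := by
      intro x hx
      unfold Csp at hx
      induction hx using Submodule.span_induction with
      | mem x hx =>
        obtain ⟨b, hb, hh, rfl⟩ := hx
        have hs : Supp N b := fun i j h => (hb i j).2 h
        rw [hLM B N q E hq hq1 hq2 hS b k hk]
        refine Submodule.add_mem _ (Submodule.sum_mem _ fun i hi => ?_) ?_
        · have hik : i < k := Finset.mem_range.1 hi
          by_cases hb0 : b i k = 0
          · have : qn q (b i k) = 0 := by rw [hb0]; simp [qn]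
            rw [this, mul_zero, mul_zero, zero_smul]
            exact Submodule.zero_mem _
          · refine Submodule.smul_mem _ _ ?_
            refine mon_memC (l := l) (q := q) (E := E) hp (hs.mvr hik hk) ?_
            intro m hm
            rw [cn_mvr N b i k m hik hk hb0, hh m hm, hcc m]
        · refine Submodule.smul_mem _ _ ?_
          refine mon_memC (l := l) (q := q) (E := E) hp
            (hs.inc (show k < k + 1 by omega) (show k + 1 ≤ N by omega)) ?_
          intro m hm
          rw [cn_inc_succ N b k m hk, hh m hm, hcc m]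
      | zero => rw [mul_zero]; exact Submodule.zero_mem _
      | add x y _ _ hx hy => rw [mul_add]; exact Submodule.add_mem _ hx hy
      | smul c x _ hx => rw [mul_smul_comm]; exact Submodule.smul_mem _ _ hx
    exact hmap _ ih'

end Pool.Agent.Helper13.SQC
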